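import Pool.Agent.W201.NT.StmG

/-!
NT-HV: the differences of two minimal geodesics from the centre of the chart are almost halved at the
midpoints.
-/

set_option autoImplicit false

open Metric Set

namespace Pool.Agent.W140.NT
open Pool.Agent.Helper381 Pool.Agent.W201.NT

section glue
variable {M E : Type} [MetricSpace M] [NormedAddCommGroup E] [NormedSpace ℝ E] (c : Loc M E)

theorem glue (hmid : Mid M) {ρ : ℝ} (hρ1 : ρ ≤ c.r₁) (hρτ : ρ < c.τ) (hρ0 : 0 < ρ) {a u : E}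
    (ha : a ∈ ball c.x₀ (ρ / (2 + 2 * c.L ^ 2))) (hu : u ∈ ball c.x₀ (ρ / (2 + 2 * c.L ^ 2)))
    (h1 : dist (c.ψ c.x₀) (c.ψ a) = dist (c.ψ c.x₀) (c.ψ u) / 2)
    (h2 : dist (c.ψ a) (c.ψ u) = dist (c.ψ c.x₀) (c.ψ u) / 2) (k : ℕ) :
    ∃ A : ℕ → E, A 0 = c.x₀ ∧ A (2 ^ k) = a ∧ A (2 ^ k + 2 ^ k) = u ∧
      (∀ i ≤ 2 ^ k + 2 ^ k, A i ∈ ball c.x₀ ρ) ∧
      (∀ i < 2 ^ k + 2 ^ k, ‖A (i + 1) - A i‖ ≤ (2 * ρ) / ((2 ^ k + 2 ^ k : ℕ) : ℝ)) ∧
      (∀ i < 2 ^ k + 2 ^ k, dist (c.ψ (A i)) (c.ψ (A (i + 1))) ≤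
        dist (c.ψ c.x₀) (c.ψ u) / ((2 ^ k + 2 ^ k : ℕ) : ℝ)) := by
  have hL := c.one_le_L
  have hx : c.x₀ ∈ ball c.x₀ (ρ / (2 + 2 * c.L ^ 2)) := mem_ball_self (by positivity)
  obtain ⟨p, p0, p1, pb, pd, pdist⟩ := c.chain_in_chart hmid hρ1 hρτ hx ha k
  obtain ⟨q, q0, q1, qb, qd, qdist⟩ := c.chain_in_chart hmid hρ1 hρτ ha hu k
  have hB : (1 + 2 * c.L ^ 2) * (ρ / (2 + 2 * c.L ^ 2)) ≤ ρ := by
    rw [mul_div_assoc', div_le_iff₀ (by positivity)]
    nlinarith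
  have hA : 2 * c.L ^ 2 * (ρ / (2 + 2 * c.L ^ 2)) ≤ ρ := by
    rw [mul_div_assoc', div_le_iff₀ (by positivity)]
    nlinarith
  have hN : (0 : ℝ) < ((2 ^ k : ℕ) : ℝ) := by positivity
  have hNN : (((2 ^ k + 2 ^ k : ℕ)) : ℝ) = 2 * ((2 ^ k : ℕ) : ℝ) := by push_cast; ring
  have hpos : 0 < 2 ^ k := by positivity
  set N : ℕ := 2 ^ k with hNdef
  set A : ℕ → E := fun i => if i ≤ N then p i else q (i - N) with hAdef
  have A1 : ∀ i ≤ N, A i = p i := fun i hi => if_pos hi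
  have A2 : ∀ i, N ≤ i → A i = q (i - N) := by
    intro i hi
    by_cases h : i ≤ N
    · have hiN : i = N := le_antisymm h hi
      rw [A1 i h, hiN, Nat.sub_self, p1, q0]
    · exact if_neg h
  refine ⟨A, ?_, ?_, ?_, ?_, ?_, ?_⟩
  · rw [A1 0 (Nat.zero_le _), p0]
  · rw [A1 N le_rfl, p1]
  · rw [A2 (N + N) (by omega), Nat.add_sub_cancel, q1]
  · intro i hi
    by_cases h : i ≤ N
    · rw [A1 i h]
      exact ball_subset_ball hB (pb i h)
    · rw [A2 i (by omega)]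
      exact ball_subset_ball hB (qb _ (by omega))
  · intro i hi
    rw [hNN, mul_div_mul_left _ _ two_ne_zero]
    by_cases h : i < N
    · rw [A1 i h.le, A1 (i + 1) h]
      exact (pd i h).trans (by gcongr)
    · rw [A2 i (by omega), A2 (i + 1) (by omega), show i + 1 - N = (i - N) + 1 by omega]
      exact (qd _ (by omega)).trans (by gcongr)
  · intro i hi
    have e : ∀ D : ℝ, D / (2 * ((N : ℕ) : ℝ)) = (D / 2) / ((N : ℕ) : ℝ) := by
      intro D; rw [div_div]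
    rw [hNN, e]
    by_cases h : i < N
    · rw [A1 i h.le, A1 (i + 1) h, ← h1]
      exact pdist i h
    · rw [A2 i (by omega), A2 (i + 1) (by omega), show i + 1 - N = (i - N) + 1 by omega, ← h2]
      exact qdist _ (by omega)

end glue

/-- the quadratic part -/
theorem quad {E : Type} [AddCommGroup E] [Module ℝ E] (B : E →ₗ[ℝ] E →ₗ[ℝ] ℝ)
    (hsymm : ∀ v w, B v w = B w v) (d h : E) :
    B h h + B (d - h) (d - h) = B d d / 2 +
      2 * B (h - (1 / 2 : ℝ) • d) (h - (1 / 2 : ℝ) • d) := by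
  simp only [map_sub, LinearMap.sub_apply, map_smul, LinearMap.smul_apply, smul_eq_mul,
    hsymm h d]
  ring

theorem hv (hES : S_ES) (hSC : S_SC) : S_HV := by
  intro M _ E _ _ c hmid
  have hL := c.one_le_L
  have hC := c.Cpos
  have hl := c.lampos
  set q : ℝ := 2 + 2 * c.L ^ 2 with hq
  have hq0 : 0 < q := by positivity
  set K' : ℝ := c.C * (4 * q ^ 2 + 2 * q) / c.lam with hK'
  have hK'0 : 0 < K' := by positivity
  have hr1 := c.r₁pos
  have hτ := c.τpos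
  have hcr := c.rpos
  refine ⟨4 * c.C / c.lam * K', min (c.r₁ / q) (min (c.τ / (2 * q)) (min 1 (1 / (8 * K')))),
    by positivity, ?_, ?_⟩
  · refine lt_min (by positivity) (lt_min (by positivity) (lt_min one_pos (by positivity)))
  intro r hr0 hr u u' a a' hu hu' ha ha' d1 d2 d1' d2'
  have hra : r ≤ c.r₁ / q := hr.trans (min_le_left _ _)
  have hrb : r ≤ c.τ / (2 * q) := hr.trans ((min_le_right _ _).trans (min_le_left _ _))
  have hrc : r ≤ 1 := hr.trans ((min_le_right _ _).trans ((min_le_right _ _).trans (min_le_left _ _)))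
  have hrd : r ≤ 1 / (8 * K') :=
    hr.trans ((min_le_right _ _).trans ((min_le_right _ _).trans (min_le_right _ _)))
  set ρ : ℝ := q * r with hρ
  have hρ0 : 0 < ρ := by positivity
  have hρr : ρ / (2 + 2 * c.L ^ 2) = r := by
    rw [← hq, hρ]
    field_simp
  have hρ1 : ρ ≤ c.r₁ := by
    rw [le_div_iff₀ hq0] at hra
    rw [hρ]; linarith
  have hρτ : ρ < c.τ := by
    rw [le_div_iff₀ (by positivity)] at hrb
    have : 0 < r * q := by positivity
    rw [hρ]; nlinarith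
  have hρR : ρ ≤ c.r := hρ1.trans (by linarith [c.r₁_lt, c.r₁pos])
  set ε : ℝ := K' * r with hε
  have hε0 : 0 < ε := by positivity
  have hε8 : ε ≤ 1 / 8 := by
    rw [le_div_iff₀ (by positivity)] at hrd
    rw [hε]; linarith
  have hεlam : ε * c.lam = c.C * (4 * q ^ 2 + 2 * q) * r := by
    rw [hε, hK']
    field_simp
  have hr2 : r ^ 2 ≤ r := by nlinarith
  have hcond : c.C * (2 * ρ) ^ 2 + c.C * (2 * ρ) / 2 + c.C * ρ / 4 ≤ ε * c.lam := by
    rw [hεlam, hρ]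
    have h1 : c.C * (2 * (q * r)) ^ 2 ≤ c.C * (4 * q ^ 2) * r := by
      have : c.C * (2 * (q * r)) ^ 2 = c.C * (4 * q ^ 2) * r ^ 2 := by ring
      rw [this]
      gcongr
    have h2 : 0 < c.C * (q * r) := by positivity
    nlinarith
  have hcond2 : c.C * ρ ^ 2 + c.C * ρ / 2 + c.C * ρ / 4 ≤ ε * c.lam := by
    have : 0 < c.C * ρ := by positivity
    have : 0 < c.C * ρ ^ 2 := by positivity
    nlinarith
  have hx0 : c.x₀ ∈ ball c.x₀ c.r := mem_ball_self c.rpos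
  set Q : E → ℝ := fun v => c.G c.x₀ v v with hQ
  set D : ℝ := dist (c.ψ c.x₀) (c.ψ u) with hD
  set D' : ℝ := dist (c.ψ c.x₀) (c.ψ u') with hD'
  set dh : E := a' - a with hdh
  set dn : E := u' - u with hdn
  have hsc := hSC M E c hmid ρ ε hρ0 hρ1 hρτ hcond2 c.x₀ u u'
    (by rw [hρr]; exact mem_ball_self hr0) (by rw [hρr]; exact hu) (by rw [hρr]; exact hu')
  have hQuu : c.G c.x₀ (u - u') (u - u') = Q dn := by
    have : u - u' = -dn := by rw [hdn]; abel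
    rw [this]
    simp [hQ]
  rw [hQuu] at hsc
  have key : (1 / 4 - ε) * (2 * (Q dh + Q (dn - dh))) ≤ (1 / 4 + ε) * Q dn := by
    apply Loc.le_of_forall_pow (K := c.C₃ * (2 * ρ) ^ 3)
    intro k
    obtain ⟨A, A0, Ah, An, Ab, Ad, Adist⟩ := glue c hmid hρ1 hρτ hρ0 (by rw [hρr]; exact ha)
      (by rw [hρr]; exact hu) d1 d2 k
    obtain ⟨B, B0, Bh, Bn, Bb, Bd, Bdist⟩ := glue c hmid hρ1 hρτ hρ0 (by rw [hρr]; exact ha')
      (by rw [hρr]; exact hu') d1' d2' k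
    have hNN : (((2 ^ k + 2 ^ k : ℕ)) : ℝ) = 2 * ((2 ^ k : ℕ) : ℝ) := by push_cast; ring
    have hNpos : 0 < 2 ^ k := by positivity
    set N : ℕ := 2 ^ k with hN
    have hNR : (0 : ℝ) < (N : ℝ) := by exact_mod_cast hNpos
    have hnpos : 0 < N + N := by omega
    have Ab1 : ∀ i ≤ N + N, A i ∈ ball c.x₀ c.r₁ := fun i hi => ball_subset_ball hρ1 (Ab i hi)
    have Bb1 : ∀ i ≤ N + N, B i ∈ ball c.x₀ c.r₁ := fun i hi => ball_subset_ball hρ1 (Bb i hi)
    have e1 := hES E c.toMetCoef ρ (2 * ρ) ε hρR (by positivity) hcond (N + N) hnpos A B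
      (by rw [A0, B0]) Ab Bb Ad Bd
    have e2 := c.energy_le hnpos A Ab1 Ad Adist
    have e3 := c.energy_le hnpos B Bb1 Bd Bdist
    have e4 := c.dist_sq_le_energy (B := 2 * ρ) hnpos (fun i => (1 / 2 : ℝ) • (A i + B i))
      (fun i hi => Loc.half_mem_ball (Ab1 i hi) (Bb1 i hi)) (by
        intro i hi
        have : (1 / 2 : ℝ) • (A (i + 1) + B (i + 1)) - (1 / 2 : ℝ) • (A i + B i) =
          (1 / 2 : ℝ) • ((A (i + 1) - A i) + (B (i + 1) - B i)) := by module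
        rw [this, norm_smul]
        have h1 := norm_add_le (A (i + 1) - A i) (B (i + 1) - B i)
        have h2 := Ad i hi
        have h3 := Bd i hi
        have : ‖(1 / 2 : ℝ)‖ = 1 / 2 := by norm_num
        rw [this]
        linarith)
    simp only [A0, B0, An, Bn] at e4
    have e5 : (1 / 2 : ℝ) • (c.x₀ + c.x₀) = c.x₀ := by module
    rw [e5] at e4
    -- the quadratic sums
    set η : ℕ → E := fun i => (B (i + 1) - A (i + 1)) - (B i - A i) with hη
    have s1 : ∑ i ∈ Finset.range N, η i = dh := by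
      have := Finset.sum_range_sub (fun i => B i - A i) N
      rw [hη]
      rw [this, Ah, Bh, A0, B0, hdh]
      abel
    have s2 : ∑ i ∈ Finset.range N, η (N + i) = dn - dh := by
      have := Finset.sum_range_sub (fun i => B (N + i) - A (N + i)) N
      have e : ∑ i ∈ Finset.range N, η (N + i) = ∑ i ∈ Finset.range N,
          ((fun i => B (N + i) - A (N + i)) (i + 1) - (fun i => B (N + i) - A (N + i)) i) := by
        apply Finset.sum_congr rfl
        intro i _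
        simp only [hη]
        rw [show N + i + 1 = N + (i + 1) by ring]
      rw [e, this, hdn, hdh]
      simp only [add_zero, Ah, Bh, An, Bn]
    have f1 := form_sum_le (c.G c.x₀) (c.symm _ hx0) (fun v => c.toMetCoef.nonneg hx0 v) N η
    have f2 := form_sum_le (c.G c.x₀) (c.symm _ hx0) (fun v => c.toMetCoef.nonneg hx0 v) N
      (fun i => η (N + i))
    rw [s1] at f1
    rw [s2] at f2
    have s3 : ∑ i ∈ Finset.range (N + N), c.G c.x₀ (η i) (η i) =
        ∑ i ∈ Finset.range N, c.G c.x₀ (η i) (η i) +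
        ∑ i ∈ Finset.range N, c.G c.x₀ (η (N + i)) (η (N + i)) := Finset.sum_range_add _ _ _
    have f3 : 2 * (Q dh + Q (dn - dh)) ≤ ((N + N : ℕ) : ℝ) *
        ∑ i ∈ Finset.range (N + N), c.G c.x₀ (η i) (η i) := by
      rw [s3, hNN]
      have g1 : Q dh ≤ N * ∑ i ∈ Finset.range N, c.G c.x₀ (η i) (η i) := f1
      have g2 : Q (dn - dh) ≤ N * ∑ i ∈ Finset.range N, c.G c.x₀ (η (N + i)) (η (N + i)) := f2
      linarith only [g1, g2]
    have f4 := mul_le_mul_of_nonneg_left f3 (by linarith : (0 : ℝ) ≤ 1 / 4 - ε)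
    have e1' : c.energy (N + N) (fun i => (1 / 2 : ℝ) • (A i + B i)) ≤
        (c.energy (N + N) A + c.energy (N + N) B) / 2 - (1 / 4 - ε) *
        (((N + N : ℕ) : ℝ) * ∑ i ∈ Finset.range (N + N), c.G c.x₀ (η i) (η i)) := e1
    have e6 : c.C₃ * (2 * ρ) ^ 3 / (N : ℝ) = 2 * (c.C₃ * (2 * ρ) ^ 3 / (((N + N : ℕ)) : ℝ)) := by
      rw [hNN]
      field_simp
    rw [e6]
    linarith only [e1', e2, e3, e4, f4, hsc]
  -- conclusion
  have hquad := quad (c.G c.x₀) (c.symm _ hx0) dn dh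
  set w : E := dh - (1 / 2 : ℝ) • dn with hw
  have hquad' : Q dh + Q (dn - dh) = Q dn / 2 + 2 * Q w := hquad
  have hQn : 0 ≤ Q dn := c.toMetCoef.nonneg hx0 dn
  have hQw : 0 ≤ Q w := c.toMetCoef.nonneg hx0 w
  have h1 : Q w ≤ 4 * ε * Q dn := by
    rw [hquad'] at key
    have k1 : ε * Q w ≤ 1 / 8 * Q w := mul_le_mul_of_nonneg_right hε8 hQw
    linarith only [key, k1]
  have h2 : c.lam * ‖w‖ ^ 2 ≤ Q w := c.lower _ hx0 w
  have h3 : Q dn ≤ c.C * ‖dn‖ ^ 2 := c.upper _ hx0 dn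
  have h4 : c.lam * ‖w‖ ^ 2 ≤ 4 * ε * (c.C * ‖dn‖ ^ 2) := by
    have : 4 * ε * Q dn ≤ 4 * ε * (c.C * ‖dn‖ ^ 2) := mul_le_mul_of_nonneg_left h3 (by positivity)
    linarith
  have e1 : (a - a') - (1 / 2 : ℝ) • (u - u') = -w := by
    rw [hw, hdh, hdn]
    module
  have e2 : u - u' = -dn := by rw [hdn]; abel
  rw [e1, norm_neg, e2, norm_neg]
  have h5 : ‖w‖ ^ 2 ≤ (4 * ε * (c.C * ‖dn‖ ^ 2)) / c.lam := by
    rw [le_div_iff₀ hl]
    linarith
  refine h5.trans (le_of_eq ?_)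
  rw [hε]
  field_simp

end Pool.Agent.W140.NT
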